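import Pool.Agent.Helper93.TS.Stmts

/-!
# Two-scale sums-differences: the parameter `c` is not small
-/

set_option autoImplicit false

namespace Pool.Agent.Helper93.TS

open Pool.Agent.Helper8.Kak

theorem dnc_near {N : ℕ} (t b : Fin (N * N)) (hJ : Jc b = Jc t) :
    |((b : ℕ) : ℝ) - ((t : ℕ) : ℝ)| ≤ (N : ℝ) := by
  have hN : 0 < N := Nat.pos_of_ne_zero fun h => by subst h; exact t.elim0
  have h1 : (b : ℕ) / N = (t : ℕ) / N := congrArg Fin.val hJ
  have h2 := Nat.mod_add_div (b : ℕ) N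
  have h3 := Nat.mod_add_div (t : ℕ) N
  have h4 := Nat.mod_lt (b : ℕ) hN
  have h5 := Nat.mod_lt (t : ℕ) hN
  rw [h1] at h2
  have h6 : (b : ℕ) ≤ (t : ℕ) + N := by omega
  have h7 : (t : ℕ) ≤ (b : ℕ) + N := by omega
  have h8 : ((b : ℕ) : ℝ) ≤ ((t : ℕ) : ℝ) + N := by exact_mod_cast h6
  have h9 : ((t : ℕ) : ℝ) ≤ ((b : ℕ) : ℝ) + N := by exact_mod_cast h7
  exact abs_le.2 ⟨by linarith, by linarith⟩

theorem st_DNC : ST_DNC := by
  intro N t r b hJ
  have hN : 0 < N := Nat.pos_of_ne_zero fun h => by subst h; exact t.elim0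
  have hN' : (0 : ℝ) < N := by exact_mod_cast hN
  have hN1 : (1 : ℝ) ≤ N := by exact_mod_cast hN
  have hnl : 0 ≤ nl b t := Helper89.KakGeo.ld_nonneg _ _
  have hld : 0 ≤ ld r t := Helper89.KakGeo.ld_nonneg _ _
  have h28 : Real.log 2 ≤ Real.log 8 := Real.log_le_log (by norm_num) (by norm_num)
  by_cases hbt : b = t
  · have hc : cpar t r b = 0 := by
      unfold cpar
      rw [hbt, sub_self, div_zero, Int.floor_zero]
    have h1 : nl b t = Real.log N := by
      unfold nl ld
      rw [hbt, Helper89.KakGeo.inv_dst_self]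
    rw [hc, h1]
    have h2 : dn (N * N) 0 ≤ 2 * Real.log N + Real.log 2 := by
      unfold dn
      have h3 : (2 : ℝ) * Real.log N + Real.log 2 = Real.log ((N : ℝ) * N * 2) := by
        rw [Real.log_mul (by positivity) (by norm_num), Real.log_mul (by positivity) (by positivity)]
        ring
      rw [h3]
      refine Real.log_le_log (by positivity) ?_
      simp only [Int.cast_zero, abs_zero]
      rw [max_eq_right (by norm_num : (0 : ℝ) ≤ 1), div_one]
      push_cast
      nlinarith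
    linarith
  · by_cases hrt : r = t
    · have hc : cpar t r b = 0 := by
        unfold cpar
        rw [hrt, sub_self, mul_zero, zero_div, Int.floor_zero]
      rw [hc]
      have h1 := Helper89.KakGeo.dn_zero_le (M := N * N) r t hrt
      linarith
    · have hM0 : (0 : ℝ) < ((N * N : ℕ) : ℝ) := Helper89.KakGeo.M_pos t
      have hβ : 0 < |((b : ℕ) : ℝ) - ((t : ℕ) : ℝ)| := by
        rw [abs_pos, sub_ne_zero]
        intro h
        exact hbt (Fin.ext (by exact_mod_cast h))
      have hρ : 0 < |((r : ℕ) : ℝ) - ((t : ℕ) : ℝ)| := by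
        rw [abs_pos, sub_ne_zero]
        intro h
        exact hrt (Fin.ext (by exact_mod_cast h))
      have hnear := dnc_near t b hJ
      set y : ℝ := (N : ℝ) * (((r : ℕ) : ℝ) - ((t : ℕ) : ℝ)) / (((b : ℕ) : ℝ) - ((t : ℕ) : ℝ))
        with hy
      have hya : |((r : ℕ) : ℝ) - ((t : ℕ) : ℝ)| ≤ |y| := by
        rw [hy, abs_div, abs_mul, abs_of_pos hN', le_div_iff₀ hβ]
        nlinarith
      have h1 := Helper89.KakGeo.le_abs_floor y
      have hc : cpar t r b = ⌊y⌋ := rfl
      have hmx : (0 : ℝ) < max |((⌊y⌋ : ℤ) : ℝ)| 1 := lt_of_lt_of_le one_pos (le_max_right _ _)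
      have hdst : dst r t = |((r : ℕ) : ℝ) - ((t : ℕ) : ℝ)| / ((N * N : ℕ) : ℝ) := by
        rw [dst_eq_of_ne hrt]
        unfold ht
        rw [← sub_div, abs_div, abs_of_pos hM0]
      have hd := dst_pos r t
      have hd1 := Helper89.KakGeo.one_le_inv_dst r t
      have h2 : ((N * N : ℕ) : ℝ) / max |((⌊y⌋ : ℤ) : ℝ)| 1 ≤ 2 * (1 / dst r t) := by
        rw [hdst, one_div_div, div_le_iff₀ hmx]
        have h3 : |((r : ℕ) : ℝ) - ((t : ℕ) : ℝ)| / 2 ≤ max |((⌊y⌋ : ℤ) : ℝ)| 1 := by linarith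
        have h4 : 2 * (((N * N : ℕ) : ℝ) / |((r : ℕ) : ℝ) - ((t : ℕ) : ℝ)|) *
            (|((r : ℕ) : ℝ) - ((t : ℕ) : ℝ)| / 2) = ((N * N : ℕ) : ℝ) := by
          field_simp
        have h5 : 0 ≤ 2 * (((N * N : ℕ) : ℝ) / |((r : ℕ) : ℝ) - ((t : ℕ) : ℝ)|) := by positivity
        have h6 := mul_le_mul_of_nonneg_left h3 h5
        rw [h4] at h6
        exact h6
      have h7 : dn (N * N) (cpar t r b) ≤ ld r t + Real.log 8 := by
        rw [hc]
        unfold dn ld
        rw [← Real.log_mul (by positivity) (by norm_num)]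
        refine Real.log_le_log (by positivity) ?_
        linarith
      linarith

end Pool.Agent.Helper93.TS
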